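import Pool.Agent.Helper92.Ru.GoalsV
import Pool.Agent.Helper27.Ru.SubAdd

/-!
# Packet LinEx (V5) of MP_d1d051_nt: linear algebra data exist
-/

set_option autoImplicit false

open NumberField MvPolynomial

namespace Pool.Agent.Helper85.RuLinEx

open Pool.Agent.Helper92.Ru

/-- Bases adapted to a decreasing filtration. -/
theorem adapted {k Q : Type} [Field k] [AddCommGroup Q] [Module k Q] :
    ∀ (B : ℕ) (F : ℕ → Submodule k Q), Antitone F → FiniteDimensional k (F 0) →
      F (B + 1) = ⊥ →
      ∃ (ι : Type) (_ : Fintype ι) (y : ι → Q) (t : ι → ℕ), LinearIndependent k y ∧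
        Submodule.span k (Set.range y) = F 0 ∧ (∀ i, y i ∈ F (t i)) ∧
        ∑ i, t i = ∑ s ∈ Finset.range B, Module.finrank k (F (s + 1)) := by
  intro B
  induction B with
  | zero =>
    intro F _ hfd _
    let b := Module.finBasis k (F 0)
    refine ⟨Fin (Module.finrank k (F 0)), inferInstance, fun i => (b i : Q), fun _ => 0,
      ?_, ?_, ?_, ?_⟩
    · exact b.linearIndependent.map' (F 0).subtype (Submodule.ker_subtype _)
    · have h1 : Set.range (fun i => (b i : Q)) = (F 0).subtype '' Set.range b := by
        rw [← Set.range_comp]; rfl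
      rw [h1, ← Submodule.map_span, b.span_eq, Submodule.map_top, Submodule.range_subtype]
    · intro i; exact (b i).2
    · simp
  | succ B ih =>
    intro F hF hfd hbot
    have h10 : F 1 ≤ F 0 := hF (Nat.zero_le 1)
    have hfd1 : FiniteDimensional k (F 1) := Submodule.finiteDimensional_of_le h10
    obtain ⟨ι', hι', y', t', hli', hsp', hmem', hsum'⟩ := ih (fun s => F (s + 1))
      (fun s s' h => hF (Nat.succ_le_succ h)) hfd1 hbot
    obtain ⟨W', hW'⟩ := Submodule.exists_isCompl (F 1)
    let C : Submodule k Q := W' ⊓ F 0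
    have hCsup : F 1 ⊔ C = F 0 := by
      show F 1 ⊔ W' ⊓ F 0 = F 0
      rw [← sup_inf_assoc_of_le W' h10, hW'.sup_eq_top, top_inf_eq]
    have hCdis : Disjoint (F 1) C := hW'.disjoint.mono_right inf_le_left
    have hfdC : FiniteDimensional k C :=
      Submodule.finiteDimensional_of_le (inf_le_right : C ≤ F 0)
    let b := Module.finBasis k C
    have hliC : LinearIndependent k (fun i => (b i : Q)) :=
      b.linearIndependent.map' C.subtype (Submodule.ker_subtype _)
    have hspC : Submodule.span k (Set.range (fun i => (b i : Q))) = C := by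
      have h1 : Set.range (fun i => (b i : Q)) = C.subtype '' Set.range b := by
        rw [← Set.range_comp]; rfl
      rw [h1, ← Submodule.map_span, b.span_eq, Submodule.map_top, Submodule.range_subtype]
    refine ⟨ι' ⊕ Fin (Module.finrank k C), inferInstance,
      Sum.elim y' (fun i => (b i : Q)), Sum.elim (fun i => t' i + 1) (fun _ => 0),
      ?_, ?_, ?_, ?_⟩
    · apply LinearIndependent.sum_type hli' hliC
      rw [hsp', hspC]
      exact hCdis
    · rw [Set.Sum.elim_range, Submodule.span_union, hsp', hspC]
      exact hCsup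
    · rintro (i | i)
      · exact hmem' i
      · show (b i : Q) ∈ F 0
        exact (b i).2.2
    · have hcard : Fintype.card ι' = Module.finrank k (F 1) := by
        have h1 := finrank_span_eq_card hli'
        rw [hsp'] at h1
        exact h1.symm
      rw [Fintype.sum_sum_type]
      simp only [Sum.elim_inl, Sum.elim_inr, Finset.sum_const_zero, add_zero]
      rw [Finset.sum_add_distrib, hsum', Finset.sum_range_succ', Finset.sum_const,
        Finset.card_univ, smul_eq_mul, mul_one, hcard]

/-- Clearing denominators of a polynomial. -/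
theorem exists_int_mul {k : Type} [Field k] [NumberField k] {d n : ℕ} (f : BB k d n) :
    ∃ c : k, c ≠ 0 ∧ ∀ e, ∃ b : 𝓞 k, coeff e (c • f) = (b : k) := by
  classical
  obtain ⟨c, hc⟩ := IsLocalization.exist_integer_multiples_of_finset (nonZeroDivisors (𝓞 k))
    (f.support.image fun e => coeff e f)
  have hc0 : (c : 𝓞 k) ≠ 0 := nonZeroDivisors.ne_zero c.2
  refine ⟨((c : 𝓞 k) : k), fun h0 => hc0 (RingOfIntegers.coe_eq_zero_iff.1 h0), ?_⟩
  intro e
  by_cases he : e ∈ f.support
  · obtain ⟨r, hr⟩ := hc (coeff e f) (Finset.mem_image_of_mem _ he)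
    refine ⟨r, ?_⟩
    rw [coeff_smul]
    rw [show (r : k) = algebraMap (𝓞 k) k r from rfl, hr]
    exact (Algebra.smul_def _ _).symm
  · refine ⟨0, ?_⟩
    rw [coeff_smul, MvPolynomial.notMem_support_iff.1 he]
    simp

theorem goalLinEx : LinEx := by
  classical
  intro k _ _ d n q a κ _ mu m J
  let φ : BB k d n →ₗ[k] (BB k d n ⧸ J.restrictScalars k) := Submodule.mkQ (J.restrictScalars k)
  let U : Submodule k (BB k d n ⧸ J.restrictScalars k) := (Rm k d n m).map φ
  let N := Module.finrank k U
  have hfinR : FiniteDimensional k (Rm k d n m) := Pool.Agent.Helper27.Ru.finite_Rm m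
  have hfinU : FiniteDimensional k U := inferInstanceAs
    (FiniteDimensional k ((Rm k d n m).map φ))
  have hφ0 : ∀ f : BB k d n, φ f = 0 ↔ f ∈ J := fun f => by
    show Submodule.mkQ (J.restrictScalars k) f = 0 ↔ f ∈ J
    rw [Submodule.mkQ_apply, Submodule.Quotient.mk_eq_zero, Submodule.restrictScalars_mem]
  -- the integral basis
  let u : Module.Basis (Fin N) k U := Module.finBasis k U
  have hlift : ∀ b : Fin N, ∃ f ∈ Rm k d n m, φ f = (u b : BB k d n ⧸ J.restrictScalars k) :=
    fun b => Submodule.mem_map.1 (u b).2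
  choose f hfR hfφ using hlift
  choose c hc0 hcint using fun b => exists_int_mul (f b)
  let bas : Fin N → BB k d n := fun b => c b • f b
  have hbasφ : ∀ b, φ (bas b) = c b • (u b : BB k d n ⧸ J.restrictScalars k) := fun b => by
    show φ (c b • f b) = _
    rw [map_smul, hfφ]
  let cu : Fin N → kˣ := fun b => Units.mk0 (c b) (hc0 b)
  let bU : Module.Basis (Fin N) k U := u.unitsSMul cu
  have hbU : ∀ b, ((bU b : U) : BB k d n ⧸ J.restrictScalars k) = φ (bas b) := fun b => by
    rw [hbasφ, Module.Basis.unitsSMul_apply]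
    rfl
  -- the adapted bases
  have hg : ∀ v : κ, ∃ (g : Fin N → BB k d n) (t : Fin N → ℕ) (gU : Module.Basis (Fin N) k U),
      (∀ s, g s ∈ Fil d a (mu v) (t s) m) ∧ (∀ s, ((gU s : U) : _) = φ (g s)) ∧
      ∑ s, t s = Ssum d a φ (mu v) m := by
    intro v
    let F : ℕ → Submodule k (BB k d n ⧸ J.restrictScalars k) := fun t =>
      (Fil d a (mu v) t m).map φ
    have hF0 : F 0 = U := by
      show (Fil d a (mu v) 0 m).map φ = U
      rw [Pool.Agent.Helper27.Ru.Fil_zero]
    have hFanti : Antitone F := fun s t hst =>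
      Submodule.map_mono (Pool.Agent.Helper27.Ru.Fil_anti a (mu v) m hst)
    have hFfd : FiniteDimensional k (F 0) := by rw [hF0]; exact hfinU
    have hFbot : F (m * ∑ i, mu v i + 1) = ⊥ := by
      show (Fil d a (mu v) _ m).map φ = ⊥
      rw [Pool.Agent.Helper27.Ru.Fil_bot a (mu v) m _ (Nat.lt_succ_self _), Submodule.map_bot]
    obtain ⟨ι, hι, y, t, hli, hsp, hmem, hsum⟩ := adapted _ F hFanti hFfd hFbot
    have hcard : Fintype.card ι = N := by
      have h1 := finrank_span_eq_card hli
      rw [hsp, hF0] at h1
      exact h1.symm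
    let e : ι ≃ Fin N := Fintype.equivFinOfCardEq hcard
    have hyU : ∀ i, y i ∈ U := fun i => by
      rw [← hF0, ← hsp]; exact Submodule.subset_span (Set.mem_range_self i)
    let yU : ι → U := fun i => ⟨y i, hyU i⟩
    have hliU : LinearIndependent k yU := by
      apply LinearIndependent.of_comp U.subtype
      exact hli
    have hspU : ⊤ ≤ Submodule.span k (Set.range yU) := by
      intro x _
      have hx : (x : BB k d n ⧸ J.restrictScalars k) ∈ Submodule.span k (Set.range y) := by
        rw [hsp, hF0]; exact x.2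
      have h1 : Set.range y = U.subtype '' Set.range yU := by
        rw [← Set.range_comp]; rfl
      rw [h1, ← Submodule.map_span] at hx
      obtain ⟨x', hx', hxx⟩ := Submodule.mem_map.1 hx
      have : x' = x := Subtype.ext hxx
      rwa [← this]
    let gU : Module.Basis (Fin N) k U := (Module.Basis.mk hliU hspU).reindex e
    have hlift : ∀ i, ∃ g ∈ Fil d a (mu v) (t i) m, φ g = y i := fun i =>
      Submodule.mem_map.1 (hmem i)
    choose g hgF hgφ using hlift
    refine ⟨fun s => g (e.symm s), fun s => t (e.symm s), gU, fun s => hgF _, ?_, ?_⟩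
    · intro s
      have h2 : gU s = yU (e.symm s) := by
        show ((Module.Basis.mk hliU hspU).reindex e) s = _
        rw [Module.Basis.reindex_apply, Module.Basis.mk_apply]
      rw [h2, hgφ]
    · rw [Equiv.sum_comp e.symm t, hsum]
      unfold Ssum
      have h1 : Finset.Icc 1 (m * ∑ i, mu v i) =
          (Finset.range (m * ∑ i, mu v i)).image (fun s => s + 1) := by
        ext s
        simp only [Finset.mem_Icc, Finset.mem_image, Finset.mem_range]
        constructor
        · rintro ⟨h1, h2⟩
          exact ⟨s - 1, by omega, by omega⟩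
        · rintro ⟨s', hs', rfl⟩
          omega
      rw [h1, Finset.sum_image (fun x _ y _ h => by simpa using h)]
  choose g t gU hgF hgφ htsum using hg
  refine ⟨{
    bas := bas
    bas_mem := fun b => (Rm k d n m).smul_mem _ (hfR b)
    bas_int := fun b e => hcint b e
    bas_ind := ?_
    A := fun v => (bU.toMatrix (gU v)).transpose
    A_det := ?_
    g := g
    t := t
    g_mem := hgF
    g_eq := ?_
    t_sum := htsum }⟩
  · intro c' hc'
    have h1 : φ (∑ b, c' b • bas b) = 0 := (hφ0 _).2 hc'
    rw [map_sum] at h1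
    have h2 : ∑ b, c' b • bU b = 0 := by
      apply Subtype.ext
      rw [AddSubmonoidClass.coe_finsetSum]
      show ∑ b, c' b • ((bU b : U) : BB k d n ⧸ J.restrictScalars k) = 0
      rw [← h1]
      refine Finset.sum_congr rfl fun b _ => ?_
      rw [hbU]
      exact (map_smul φ (c' b) (bas b)).symm
    funext b
    exact Fintype.linearIndependent_iff.1 bU.linearIndependent c' h2 b
  · intro v
    rw [Matrix.det_transpose]
    have h1 := bU.isUnit_det (gU v)
    rw [Module.Basis.det_apply] at h1
    exact h1.ne_zero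
  · intro v s
    rw [← hφ0, map_sub, sub_eq_zero, map_sum, ← hgφ]
    have h1 := bU.sum_repr (gU v s)
    conv_lhs => rw [← h1]
    rw [AddSubmonoidClass.coe_finsetSum]
    refine Finset.sum_congr rfl fun b _ => ?_
    show (bU.repr (gU v s)) b • ((bU b : U) : BB k d n ⧸ J.restrictScalars k) = _
    rw [hbU]
    exact (map_smul φ _ (bas b)).symm

end Pool.Agent.Helper85.RuLinEx
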