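import Pool.Agent.Helper92.Ru.GoalsS

/-!
# Packet M1 (S2) of MP_d1d051_nt: Minkowski's first theorem over `S`-integers
-/

set_option autoImplicit false

open NumberField

namespace Pool.Agent.Helper85.RuM1

open Pool.Agent.Helper92.Ru

variable {k : Type} [Field k] [NumberField k]

theorem one_lt_qw (u : FinitePlace k) : (1 : ℝ) < qw u := by
  exact_mod_cast NumberField.HeightOneSpectrum.one_lt_absNorm u.maximalIdeal

theorem le_of_mem_pow (u : FinitePlace k) (x : 𝓞 k) (a : ℕ)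
    (h : x ∈ u.maximalIdeal.asIdeal ^ a) : u (x : k) * (qw u : ℝ) ^ a ≤ 1 := by
  by_cases hx : x = 0
  · subst hx; simp
  · have h1 : u (x : k) * (qw u : ℝ) ^ multiplicity u.maximalIdeal.asIdeal (Ideal.span {x}) = 1 := by
      have := u.apply_mul_absNorm_pow_eq_one hx
      simpa [qw] using this
    have hnz : Ideal.span {x} ≠ (0 : Ideal (𝓞 k)) := by
      simpa using hx
    have hfin : FiniteMultiplicity u.maximalIdeal.asIdeal (Ideal.span {x}) :=
      FiniteMultiplicity.of_prime_left u.maximalIdeal.prime hnz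
    have hdvd : u.maximalIdeal.asIdeal ^ a ∣ Ideal.span {x} := by
      rw [Ideal.dvd_span_singleton]; exact h
    have hle : a ≤ multiplicity u.maximalIdeal.asIdeal (Ideal.span {x}) :=
      hfin.le_multiplicity_of_pow_dvd hdvd
    calc u (x : k) * (qw u : ℝ) ^ a
        ≤ u (x : k) * (qw u : ℝ) ^ multiplicity u.maximalIdeal.asIdeal (Ideal.span {x}) := by
          apply mul_le_mul_of_nonneg_left _ (apply_nonneg u _)
          exact pow_le_pow_right₀ (one_lt_qw u).le hle
      _ = 1 := h1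

theorem exists_pi (u : FinitePlace k) : ∃ (h : ℕ) (π : 𝓞 k), 1 ≤ h ∧ π ≠ 0 ∧
    u (π : k) * (qw u : ℝ) ^ h = 1 ∧ ∀ u' : FinitePlace k, u' ≠ u → u' (π : k) = 1 := by
  classical
  set p : Ideal (𝓞 k) := u.maximalIdeal.asIdeal with hp
  have hp0 : p ≠ ⊥ := u.maximalIdeal.ne_bot
  let h := Fintype.card (ClassGroup (𝓞 k))
  have hh : 1 ≤ h := Fintype.card_pos
  have hpm : p ∈ nonZeroDivisors (Ideal (𝓞 k)) := mem_nonZeroDivisors_of_ne_zero hp0
  have hprin : (p ^ h).IsPrincipal := by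
    have h1 : (ClassGroup.mk0 ⟨p, hpm⟩) ^ h = 1 := pow_card_eq_one
    rw [← map_pow] at h1
    exact (ClassGroup.mk0_eq_one_iff _).1 h1
  obtain ⟨π, hπ⟩ := hprin
  have hπ' : p ^ h = Ideal.span {π} := hπ
  have hπ0 : π ≠ 0 := by
    rintro rfl
    rw [Ideal.span_singleton_zero] at hπ'
    exact hp0 ((pow_eq_zero_iff (by omega : h ≠ 0)).1 hπ')
  refine ⟨h, π, hh, hπ0, ?_, ?_⟩
  · have h1 : u (π : k) * (qw u : ℝ) ^ multiplicity u.maximalIdeal.asIdeal (Ideal.span {π}) = 1 := by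
      have := u.apply_mul_absNorm_pow_eq_one hπ0
      simpa [qw] using this
    have h2 : multiplicity u.maximalIdeal.asIdeal (Ideal.span {π}) = h := by
      rw [← hπ', ← hp]
      exact multiplicity_pow_self_of_prime (Ideal.prime_of_isPrime hp0 u.maximalIdeal.isPrime) h
    rw [h2] at h1
    exact h1
  · intro u' hu'
    rw [← FinitePlace.norm_embedding_eq]
    rw [show ((π : 𝓞 k) : k) = algebraMap (𝓞 k) k π from rfl,
      FinitePlace.norm_eq_one_iff_notMem]
    intro hmem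
    apply hu'
    have h1 : p ^ h ≤ u'.maximalIdeal.asIdeal := by
      rw [hπ']
      exact (Ideal.span_singleton_le_iff_mem _).2 hmem
    have h2 : p ≤ u'.maximalIdeal.asIdeal := by
      have := u'.maximalIdeal.isPrime
      exact (Ideal.IsPrime.pow_le_iff (by omega)).1 h1
    have h3 : p = u'.maximalIdeal.asIdeal :=
      Ideal.IsMaximal.eq_of_le u.maximalIdeal.isMaximal u'.maximalIdeal.isPrime.ne_top h2
    have h4 : u'.maximalIdeal = u.maximalIdeal := IsDedekindDomain.HeightOneSpectrum.ext h3.symm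
    exact (FinitePlace.maximalIdeal_inj _ _).1 h4

omit [NumberField k] in
theorem mulVec_div {ι : Type} [Fintype ι] (A : Matrix ι ι k) (x : ι → k) (P : k) (i : ι) :
    A.mulVec (fun j => x j / P) i = A.mulVec x i / P := by
  simp only [Matrix.mulVec, dotProduct, Finset.sum_div, mul_div_assoc]

theorem goalM1 : M1int → M1 := by
  intro H k _ _ T ι _ _ _ A
  classical
  obtain ⟨C0, hC0, hM⟩ := H k T ι (fun v => A (Sum.inl v))
  choose h π hh hπ0 hπu hπ' using fun u : FinitePlace k => exists_pi u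
  obtain ⟨c, hc⟩ := IsLocalization.exist_integer_multiples_of_finite (nonZeroDivisors (𝓞 k))
    (fun p : {w : FinitePlace k // w ∈ T} × ι × ι => A (Sum.inr p.1) p.2.1 p.2.2)
  have hc0 : (c : 𝓞 k) ≠ 0 := nonZeroDivisors.ne_zero c.2
  have hck : ((c : 𝓞 k) : k) ≠ 0 := by
    intro h0
    exact hc0 (RingOfIntegers.coe_eq_zero_iff.1 h0)
  have hB : ∀ (u : {w : FinitePlace k // w ∈ T}) (i j : ι), ∃ r : 𝓞 k,
      (r : k) = ((c : 𝓞 k) : k) * A (Sum.inr u) i j := by
    intro u i j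
    obtain ⟨r, hr⟩ := hc (u, i, j)
    refine ⟨r, ?_⟩
    rw [show (r : k) = algebraMap (𝓞 k) k r from rfl, hr]
    exact Algebra.smul_def _ _
  choose B hB using hB
  let uc : {w : FinitePlace k // w ∈ T} → ℝ := fun u => u.1 ((c : 𝓞 k) : k)
  have huc : ∀ u, 0 < uc u := fun u => FinitePlace.pos_iff.2 hck
  have hq1 : ∀ u : {w : FinitePlace k // w ∈ T}, (1 : ℝ) < qw u.1 := fun u => one_lt_qw u.1
  have hq0 : ∀ u : {w : FinitePlace k // w ∈ T}, (0 : ℝ) < qw u.1 := fun u =>
    zero_lt_one.trans (hq1 u)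
  refine ⟨C0 * ∏ u : {w : FinitePlace k // w ∈ T}, ∏ _i : ι, ((qw u.1 : ℝ) / uc u), ?_, ?_⟩
  · exact mul_pos hC0 (Finset.prod_pos fun u _ => Finset.prod_pos fun i _ =>
      div_pos (hq0 u) (huc u))
  intro w hw hCw
  have hb : ∀ (u : {w : FinitePlace k // w ∈ T}) (i : ι), ∃ b : ℤ,
      (qw u.1 : ℝ) ^ (-b) ≤ w (Sum.inr u) i * uc u ∧
      (qw u.1 : ℝ) ^ b ≤ (qw u.1 : ℝ) / (w (Sum.inr u) i * uc u) := by
    intro u i
    have hx : 0 < w (Sum.inr u) i * uc u := mul_pos (hw _ _) (huc u)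
    obtain ⟨n, hn1, hn2⟩ := exists_mem_Ico_zpow hx (hq1 u)
    refine ⟨-n, by simpa using hn1, ?_⟩
    rw [le_div_iff₀ hx, zpow_neg, inv_mul_le_iff₀ (zpow_pos (hq0 u) n)]
    rw [zpow_add₀ (hq0 u).ne', zpow_one] at hn2
    exact hn2.le
  choose b hb1 hb2 using hb
  let n : {w : FinitePlace k // w ∈ T} → ℕ := fun u => ∑ i, (b u i).natAbs
  have ha : ∀ (u : {w : FinitePlace k // w ∈ T}) (i : ι), ∃ a : ℕ,
      (a : ℤ) = b u i + (h u.1 * n u : ℕ) := by
    intro u i
    have h1 : (b u i).natAbs ≤ n u :=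
      Finset.single_le_sum (f := fun i => (b u i).natAbs) (fun _ _ => Nat.zero_le _)
        (Finset.mem_univ i)
    have h2 : n u ≤ h u.1 * n u := Nat.le_mul_of_pos_left _ (hh u.1)
    refine ⟨(b u i + (h u.1 * n u : ℕ)).toNat, ?_⟩
    apply Int.toNat_of_nonneg
    have h3 : ((b u i).natAbs : ℤ) ≤ (h u.1 * n u : ℕ) := by exact_mod_cast h1.trans h2
    have h4 : -((b u i).natAbs : ℤ) ≤ b u i := by
      rw [Int.natCast_natAbs]; exact neg_abs_le _
    linarith
  choose a ha using ha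
  let P : 𝓞 k := ∏ u : {w : FinitePlace k // w ∈ T}, π u.1 ^ n u
  have hP0 : P ≠ 0 := Finset.prod_ne_zero_iff.2 fun u _ => pow_ne_zero _ (hπ0 u.1)
  have hPk : (P : k) ≠ 0 := by
    intro h0
    exact hP0 (RingOfIntegers.coe_eq_zero_iff.1 h0)
  have hPcoe : (P : k) = ∏ u : {w : FinitePlace k // w ∈ T}, ((π u.1 : 𝓞 k) : k) ^ n u := by
    show algebraMap (𝓞 k) k P = _
    rw [map_prod]
    refine Finset.prod_congr rfl fun u _ => ?_
    rw [map_pow]
  have hPout : ∀ w' : FinitePlace k, w' ∉ T → w' (P : k) = 1 := by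
    intro w' hw'
    rw [hPcoe, map_prod]
    refine Finset.prod_eq_one fun u _ => ?_
    rw [map_pow, hπ' u.1 w' (fun h0 => hw' (h0 ▸ u.2)), one_pow]
  have hPin : ∀ u : {w : FinitePlace k // w ∈ T},
      u.1 (P : k) * (qw u.1 : ℝ) ^ (h u.1 * n u) = 1 := by
    intro u
    have h1 : u.1 (P : k) = u.1 ((π u.1 : 𝓞 k) : k) ^ n u := by
      rw [hPcoe, map_prod]
      rw [Finset.prod_eq_single u]
      · rw [map_pow]
      · intro u' _ hne
        rw [map_pow, hπ' u'.1 u.1 (fun h0 => hne (Subtype.ext h0.symm)), one_pow]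
      · intro h0; exact (h0 (Finset.mem_univ u)).elim
    rw [h1, pow_mul, ← mul_pow, hπu u.1, one_pow]
  have hPinpos : ∀ u : {w : FinitePlace k // w ∈ T}, 0 < u.1 (P : k) := fun u =>
    FinitePlace.pos_iff.2 hPk
  have hPinf : ∀ v : InfinitePlace k, 0 < v (P : k) ^ v.mult := fun v =>
    pow_pos (v.pos_iff.2 hPk) _
  -- product formula
  have hX : ∏ v : InfinitePlace k, v (P : k) ^ v.mult =
      ∏ u : {w : FinitePlace k // w ∈ T}, (qw u.1 : ℝ) ^ (h u.1 * n u) := by
    have hpf := prod_abs_eq_one hPk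
    have h1 : ∏ᶠ w' : FinitePlace k, w' (P : k) =
        ∏ u : {w : FinitePlace k // w ∈ T}, u.1 (P : k) := by
      rw [finprod_eq_prod_of_mulSupport_subset (s := T)]
      · exact (Finset.prod_coe_sort T (fun w => w (P : k))).symm
      · intro w' hw'
        by_contra hcon
        exact hw' (hPout w' hcon)
    rw [h1] at hpf
    have h2 : (∏ u : {w : FinitePlace k // w ∈ T}, (qw u.1 : ℝ) ^ (h u.1 * n u)) *
        ∏ u : {w : FinitePlace k // w ∈ T}, u.1 (P : k) = 1 := by
      rw [← Finset.prod_mul_distrib]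
      refine Finset.prod_eq_one fun u _ => ?_
      rw [mul_comm]; exact hPin u
    have h3 : (∏ u : {w : FinitePlace k // w ∈ T}, u.1 (P : k)) ≠ 0 :=
      Finset.prod_ne_zero_iff.2 fun u _ => (hPinpos u).ne'
    exact mul_right_cancel₀ h3 (hpf.trans h2.symm)
  have hcond : C0 * ∏ u : {w : FinitePlace k // w ∈ T}, ∏ i, (qw u.1 : ℝ) ^ a u i ≤
      ∏ v : InfinitePlace k, ∏ i, (w (Sum.inl v) i * v (P : k) ^ v.mult) := by
    have hsplit : ∏ v : SP k T, ∏ i, w v i =
        (∏ v : InfinitePlace k, ∏ i, w (Sum.inl v) i) *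
          ∏ u : {w : FinitePlace k // w ∈ T}, ∏ i, w (Sum.inr u) i :=
      Fintype.prod_sum_type _
    have hL : ∏ u : {w : FinitePlace k // w ∈ T}, ∏ i, (qw u.1 : ℝ) ^ a u i =
        (∏ u : {w : FinitePlace k // w ∈ T}, ∏ i, (qw u.1 : ℝ) ^ b u i) *
          (∏ u : {w : FinitePlace k // w ∈ T}, (qw u.1 : ℝ) ^ (h u.1 * n u)) ^ Fintype.card ι := by
      rw [← Finset.prod_pow, ← Finset.prod_mul_distrib]
      refine Finset.prod_congr rfl fun u _ => ?_
      have h1 : ((qw u.1 : ℝ) ^ (h u.1 * n u)) ^ Fintype.card ι =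
          ∏ _i : ι, (qw u.1 : ℝ) ^ (h u.1 * n u) := by
        rw [Finset.prod_const, Finset.card_univ]
      rw [h1, ← Finset.prod_mul_distrib]
      refine Finset.prod_congr rfl fun i _ => ?_
      rw [← zpow_natCast, ha u i, zpow_add₀ (hq0 u).ne', zpow_natCast]
    have hR : ∏ v : InfinitePlace k, ∏ i, (w (Sum.inl v) i * v (P : k) ^ v.mult) =
        (∏ v : InfinitePlace k, ∏ i, w (Sum.inl v) i) *
          (∏ v : InfinitePlace k, v (P : k) ^ v.mult) ^ Fintype.card ι := by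
      rw [← Finset.prod_pow, ← Finset.prod_mul_distrib]
      refine Finset.prod_congr rfl fun v _ => ?_
      have h1 : (v (P : k) ^ v.mult) ^ Fintype.card ι = ∏ _i : ι, v (P : k) ^ v.mult := by
        rw [Finset.prod_const, Finset.card_univ]
      rw [h1, ← Finset.prod_mul_distrib]
    rw [hL, hR, hX, ← mul_assoc]
    apply mul_le_mul_of_nonneg_right
    · have hwT : 0 < ∏ u : {w : FinitePlace k // w ∈ T}, ∏ i, w (Sum.inr u) i :=
        Finset.prod_pos fun u _ => Finset.prod_pos fun i _ => hw _ _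
      have h1 : ∏ u : {w : FinitePlace k // w ∈ T}, ∏ i, (qw u.1 : ℝ) ^ b u i ≤
          (∏ u : {w : FinitePlace k // w ∈ T}, ∏ _i : ι, ((qw u.1 : ℝ) / uc u)) /
            ∏ u : {w : FinitePlace k // w ∈ T}, ∏ i, w (Sum.inr u) i := by
        rw [← Finset.prod_div_distrib]
        refine Finset.prod_le_prod (fun u _ => Finset.prod_nonneg fun i _ =>
          (zpow_pos (hq0 u) _).le) fun u _ => ?_
        rw [← Finset.prod_div_distrib]
        refine Finset.prod_le_prod (fun i _ => (zpow_pos (hq0 u) _).le) fun i _ => ?_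
        refine (hb2 u i).trans (le_of_eq ?_)
        have := (hw (Sum.inr u) i).ne'
        have := (huc u).ne'
        field_simp
      calc C0 * ∏ u : {w : FinitePlace k // w ∈ T}, ∏ i, (qw u.1 : ℝ) ^ b u i
          ≤ C0 * ((∏ u : {w : FinitePlace k // w ∈ T}, ∏ _i : ι, ((qw u.1 : ℝ) / uc u)) /
            ∏ u : {w : FinitePlace k // w ∈ T}, ∏ i, w (Sum.inr u) i) :=
            mul_le_mul_of_nonneg_left h1 hC0.le
        _ ≤ ∏ v : InfinitePlace k, ∏ i, w (Sum.inl v) i := by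
            rw [← mul_div_assoc, div_le_iff₀ hwT, ← hsplit]
            exact hCw
    · exact pow_nonneg (Finset.prod_nonneg fun u _ => pow_nonneg (hq0 u).le _) _
  obtain ⟨x', hx'0, hx'inf, hx'fin⟩ := hM B a
    (fun v i => w (Sum.inl v) i * v (P : k) ^ v.mult)
    (fun v i => mul_pos (hw _ _) (hPinf v)) hcond
  refine ⟨fun i => (x' i : k) / (P : k), ?_, ?_, ?_⟩
  · intro h0
    apply hx'0
    funext i
    have h1 := congrFun h0 i
    simp only [Pi.zero_apply, div_eq_zero_iff, hPk, or_false] at h1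
    exact RingOfIntegers.coe_eq_zero_iff.1 h1
  · intro i w' hw'
    show w' ((x' i : k) / (P : k)) ≤ 1
    rw [map_div₀, hPout w' hw', div_one]
    exact SInt.of_int (T := ∅) (x' i) w' (by simp)
  · intro v i
    rw [mulVec_div]
    rcases v with v | u
    · rw [nS_div, nS_inl, nS_inl, div_le_iff₀ (hPinf v)]
      exact hx'inf v i
    · rw [nS_div, nS_inr, nS_inr, div_le_iff₀ (hPinpos u)]
      have h1 := le_of_mem_pow u.1 _ _ (hx'fin u i)
      have h2 : ((Matrix.mulVec (B u) x' i : 𝓞 k) : k) =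
          ((c : 𝓞 k) : k) * (A (Sum.inr u)).mulVec (fun j => (x' j : k)) i := by
        simp only [Matrix.mulVec, dotProduct]
        show algebraMap (𝓞 k) k (∑ j, B u i j * x' j) = _
        rw [map_sum, Finset.mul_sum]
        refine Finset.sum_congr rfl fun j _ => ?_
        rw [map_mul]
        show (B u i j : k) * (x' j : k) = _
        rw [hB u i j, mul_assoc]
      rw [h2, map_mul] at h1
      have h3 : (qw u.1 : ℝ) ^ a u i = (qw u.1 : ℝ) ^ b u i * (qw u.1 : ℝ) ^ (h u.1 * n u) := by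
        rw [← zpow_natCast, ha u i, zpow_add₀ (hq0 u).ne', zpow_natCast]
      rw [h3] at h1
      have h4 := hPin u
      have h5 := hb1 u i
      rw [zpow_neg, inv_le_iff_one_le_mul₀ (zpow_pos (hq0 u) _)] at h5
      set yy := u.1 ((A (Sum.inr u)).mulVec (fun j => (x' j : k)) i)
      set qb := (qw u.1 : ℝ) ^ b u i
      set qn := (qw u.1 : ℝ) ^ (h u.1 * n u)
      have hqb : 0 < qb := zpow_pos (hq0 u) _
      have hqn : 0 < qn := pow_pos (hq0 u) _
      have hpos : 0 < uc u * (qb * qn) := mul_pos (huc u) (mul_pos hqb hqn)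
      have h6 : yy * (uc u * (qb * qn)) ≤ 1 := by
        calc yy * (uc u * (qb * qn)) = u.1 ((c : 𝓞 k) : k) * yy * (qb * qn) := by
              show yy * (u.1 ((c : 𝓞 k) : k) * (qb * qn)) = _
              ring
          _ ≤ 1 := h1
      have h7 : 1 ≤ w (Sum.inr u) i * u.1 (P : k) * (uc u * (qb * qn)) := by
        calc (1 : ℝ) = 1 * 1 := (one_mul 1).symm
          _ ≤ (w (Sum.inr u) i * uc u * qb) * (u.1 (P : k) * qn) := by
              rw [h4]
              exact mul_le_mul_of_nonneg_right h5 zero_le_one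
          _ = _ := by ring
      exact le_of_mul_le_mul_right (h6.trans h7) hpos

end Pool.Agent.Helper85.RuM1
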