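import Pool.Agent.Helper92.Ru.GoalsH

/-!
# Packet XiPick (H11) of MP_d1d051_nt
-/

set_option autoImplicit false

open NumberField

namespace Pool.Agent.Helper85.RuXiPick

open Pool.Agent.Helper92.Ru Height

theorem mulHeight_le_prod {k : Type} [Field k] [NumberField k] {ι : Type} [Fintype ι]
    [DecidableEq ι] (b : ι → k) : mulHeight b ≤ ∏ l, mulHeight₁ (b l) := by
  have hx : ∀ a : ι, (![b a, 1] : Fin 2 → k) ≠ 0 := fun a h => by
    have := congrFun h 1
    simp at this
  have h1 := mulHeight_fun_prod_eq (K := k) (ι := fun _ : ι => Fin 2)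
    (x := fun a => ![b a, 1]) hx
  have h2 : (fun I : ι → Fin 2 => ∏ a, (![b a, 1] : Fin 2 → k) (I a)) ∘
      (fun i : ι => fun a : ι => if a = i then (0 : Fin 2) else 1) = b := by
    funext i
    simp only [Function.comp_apply]
    rw [Finset.prod_eq_single i]
    · simp
    · intro a _ hai
      simp [hai]
    · intro h; exact (h (Finset.mem_univ i)).elim
  calc mulHeight b = mulHeight ((fun I : ι → Fin 2 => ∏ a, (![b a, 1] : Fin 2 → k) (I a)) ∘
      (fun i : ι => fun a : ι => if a = i then (0 : Fin 2) else 1)) := by rw [h2]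
    _ ≤ mulHeight (fun I : ι → Fin 2 => ∏ a, (![b a, 1] : Fin 2 → k) (I a)) :=
        mulHeight_comp_le _ _
    _ = ∏ a, mulHeight (![b a, 1] : Fin 2 → k) := h1
    _ = ∏ l, mulHeight₁ (b l) := by
        refine Finset.prod_congr rfl fun l _ => ?_
        rw [mulHeight₁_eq_mulHeight]

theorem goalXiPick : XiPick := by
  intro k _ _ ι _ _ a hcard ha
  obtain ⟨l1, hl1⟩ : ∃ i, a i ≠ 0 := Function.ne_iff.1 ha
  let b : ι → k := (a l1)⁻¹ • a
  have hb : mulHeight b = mulHeight a := mulHeight_smul_eq_mulHeight a (inv_ne_zero hl1)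
  have hb1 : b l1 = 1 := by
    show (a l1)⁻¹ * a l1 = 1
    exact inv_mul_cancel₀ hl1
  have hne : (Finset.univ.erase l1).Nonempty := by
    rw [← Finset.card_pos, Finset.card_erase_of_mem (Finset.mem_univ _), Finset.card_univ]
    omega
  obtain ⟨l2, hl2, hmax⟩ := Finset.exists_max_image (Finset.univ.erase l1)
    (fun l => mulHeight₁ (b l)) hne
  refine ⟨l1, l2, fun h => (Finset.ne_of_mem_erase hl2) h.symm, hl1, ?_⟩
  have h3 : mulHeight₁ (-(a l2) / a l1) = mulHeight₁ (b l2) := by
    rw [show -(a l2) / a l1 = -(b l2) by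
      show -(a l2) / a l1 = -((a l1)⁻¹ * a l2)
      rw [neg_div, div_eq_inv_mul], mulHeight₁_neg]
  rw [h3, ← hb]
  calc mulHeight b ≤ ∏ l, mulHeight₁ (b l) := mulHeight_le_prod b
    _ = mulHeight₁ (b l1) * ∏ l ∈ Finset.univ.erase l1, mulHeight₁ (b l) :=
        (Finset.mul_prod_erase _ _ (Finset.mem_univ l1)).symm
    _ = ∏ l ∈ Finset.univ.erase l1, mulHeight₁ (b l) := by
        rw [hb1, mulHeight₁_one, one_mul]
    _ ≤ ∏ _l ∈ Finset.univ.erase l1, mulHeight₁ (b l2) :=
        Finset.prod_le_prod (fun l _ => mulHeight₁_nonneg _) fun l hl => hmax l hl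
    _ = mulHeight₁ (b l2) ^ (Fintype.card ι - 1) := by
        rw [Finset.prod_const, Finset.card_erase_of_mem (Finset.mem_univ _), Finset.card_univ]

end Pool.Agent.Helper85.RuXiPick
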